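import Mathlib
import Pool.Agent.Helper831.SemiRiem
import Pool.Agent.Helper831.SemiLorentz
import Pool.Agent.Helper831.SolMetric

set_option maxSynthPendingDepth 3

open scoped Manifold ContDiff Topology
open Set Filter
open Pool.Agent.Helper831

namespace Pool.Agent.Results.MP_aba202_gt.NoClosedGeodesic

/-- a periodic function with nonnegative derivative has zero derivative -/
theorem deriv_zero_of_periodic {f f' : ℝ → ℝ} {L : ℝ} (hL : 0 < L)
    (hf : ∀ t, HasDerivAt f (f' t) t) (hnn : ∀ t, 0 ≤ f' t) (hper : ∀ t, f (t + L) = f t)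
    (t : ℝ) : f' t = 0 := by
  have hmono : Monotone f := monotone_of_deriv_nonneg (fun t => (hf t).differentiableAt)
    (fun t => by rw [(hf t).deriv]; exact hnn t)
  have hev : f =ᶠ[𝓝 t] fun _ => f (t - L / 2) := by
    have : ∀ᶠ u in 𝓝 t, u ∈ Ioo (t - L / 2) (t + L / 2) :=
      Ioo_mem_nhds (by linarith) (by linarith)
    filter_upwards [this] with u hu
    have h1 : f (t - L / 2) ≤ f u := hmono hu.1.le
    have h2 : f u ≤ f (t + L / 2) := hmono hu.2.le
    have h3 : f (t + L / 2) = f (t - L / 2) := by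
      rw [← hper (t - L / 2)]
      congr 1
      ring
    linarith
  have h1 : HasDerivAt f 0 t := (hasDerivAt_const t (f (t - L / 2))).congr_of_eventuallyEq hev
  exact (hf t).unique h1

/-- the geodesic equations in coordinates -/
theorem coord_eqs {γ : ℝ → SolMfd} (hγ : solMetric.IsGeodesic γ)
    {e : OpenPartialHomeomorph SolMfd (ℝ × ℝ × ℝ)} (he : e ∈ atlas (ℝ × ℝ × ℝ) SolMfd) {t : ℝ}
    (ht : γ t ∈ e.source) :
    HasDerivAt (fun s => Real.exp (-tau * (e (γ s)).2.2) *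
      (deriv (fun r => e (γ r)) s).2.2) 0 t ∧
    HasDerivAt (fun s => Real.exp (2 * tau * (e (γ s)).2.2) *
      (deriv (fun r => e (γ r)) s).2.1) 0 t ∧
    HasDerivAt (fun s => Real.exp (-tau * (e (γ s)).2.2) * (deriv (fun r => e (γ r)) s).1)
      (-tau * Real.exp (-tau * (e (γ t)).2.2) * ((deriv (fun r => e (γ r)) t).1 *
        (deriv (fun r => e (γ r)) t).2.2)
        + tau * Real.exp (2 * tau * (e (γ t)).2.2) * ((deriv (fun r => e (γ r)) t).2.1 *
        (deriv (fun r => e (γ r)) t).2.1)) t := by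
  have h := hγ.2 e he t ht
  simp only [solMetric_coeff he, solForm_fderiv] at h
  refine ⟨?_, ?_, ?_⟩
  · have h1 := h (1, 0, 0)
    simp only [solForm_apply, mul_zero, zero_add, mul_one, add_zero] at h1
    exact h1
  · have h1 := h (0, 1, 0)
    simp only [solForm_apply, mul_zero, zero_add, mul_one, add_zero] at h1
    exact h1
  · have h1 := h (0, 0, 1)
    simp only [solForm_apply, mul_zero, mul_one, add_zero] at h1
    refine h1.congr_deriv ?_
    ring

/-- derivative of the three invariant velocity components along a geodesic -/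
theorem frame_eqs {γ : ℝ → SolMfd} (hγ : solMetric.IsGeodesic γ) (t : ℝ) :
    HasDerivAt (fun s => solW3.form (γ s) (velocity (ℝ × ℝ × ℝ) γ s))
      (tau * (solW3.form (γ t) (velocity (ℝ × ℝ × ℝ) γ t)) ^ 2) t ∧
    HasDerivAt (fun s => solW2.form (γ s) (velocity (ℝ × ℝ × ℝ) γ s))
      (-tau * solW3.form (γ t) (velocity (ℝ × ℝ × ℝ) γ t)
        * solW2.form (γ t) (velocity (ℝ × ℝ × ℝ) γ t)) t ∧
    HasDerivAt (fun s => solW1.form (γ s) (velocity (ℝ × ℝ × ℝ) γ s))
      (-tau * solW3.form (γ t) (velocity (ℝ × ℝ × ℝ) γ t)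
        * solW1.form (γ t) (velocity (ℝ × ℝ × ℝ) γ t)
        + tau * (solW2.form (γ t) (velocity (ℝ × ℝ × ℝ) γ t)) ^ 2) t := by
  set e := chartAt (ℝ × ℝ × ℝ) (γ t) with he'
  have he : e ∈ atlas (ℝ × ℝ × ℝ) SolMfd := chart_mem_atlas (ℝ × ℝ × ℝ) (γ t)
  have ht : γ t ∈ e.source := mem_chart_source (ℝ × ℝ × ℝ) (γ t)
  obtain ⟨h1, h2, h3⟩ := coord_eqs hγ he ht
  have hmd : ∀ r, MDifferentiableAt 𝓘(ℝ, ℝ) 𝓘(ℝ, ℝ × ℝ × ℝ) γ r := fun r =>
    (hγ.1 r).mdifferentiableAt (by simp)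
  have hcont : ContinuousAt γ t := (hγ.1 t).continuousAt
  have hev : ∀ᶠ r in 𝓝 t, γ r ∈ e.source :=
    hcont.eventually_mem (e.open_source.mem_nhds ht)
  have hcd : HasDerivAt (fun r => e (γ r)) (deriv (fun r => e (γ r)) t) t :=
    ((contDiffAt_coord he hγ.1 ht).differentiableAt (by simp)).hasDerivAt
  have hz := hasDerivAt_snd' (hasDerivAt_snd' hcd)
  have hW1 : ∀ᶠ r in 𝓝 t, solW1.form (γ r) (velocity (ℝ × ℝ × ℝ) γ r)
      = Real.exp (-tau * (e (γ r)).2.2) * (deriv (fun r => e (γ r)) r).1 := by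
    filter_upwards [hev] with r hr
    rw [eval_velocity' solW1 he (hmd r) hr, solW1_coeff he]
  have hW2 : ∀ᶠ r in 𝓝 t, solW2.form (γ r) (velocity (ℝ × ℝ × ℝ) γ r)
      = Real.exp (tau * (e (γ r)).2.2) * (deriv (fun r => e (γ r)) r).2.1 := by
    filter_upwards [hev] with r hr
    rw [eval_velocity' solW2 he (hmd r) hr, solW2_coeff he]
  have hW3 : ∀ᶠ r in 𝓝 t, solW3.form (γ r) (velocity (ℝ × ℝ × ℝ) γ r)
      = (deriv (fun r => e (γ r)) r).2.2 := by
    filter_upwards [hev] with r hr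
    rw [eval_velocity' solW3 he (hmd r) hr, solW3_coeff he]
  set z := (e (γ t)).2.2 with hzdef
  set u := deriv (fun r => e (γ r)) t with hu
  refine ⟨?_, ?_, ?_⟩
  · rw [hW3.self_of_nhds]
    have h4 := ((hz.const_mul tau).exp).mul h1
    have h5 : (fun s => solW3.form (γ s) (velocity (ℝ × ℝ × ℝ) γ s)) =ᶠ[𝓝 t]
        (fun s => Real.exp (tau * (e (γ s)).2.2)) * (fun s => Real.exp (-tau * (e (γ s)).2.2) *
      (deriv (fun r => e (γ r)) s).2.2) := by
      filter_upwards [hW3] with r hr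
      rw [hr, Pi.mul_apply, ← mul_assoc, ← Real.exp_add]
      have : tau * (e (γ r)).2.2 + -tau * (e (γ r)).2.2 = 0 := by ring
      rw [this, Real.exp_zero, one_mul]
    refine (h4.congr_of_eventuallyEq h5).congr_deriv ?_
    have h6 : Real.exp (tau * z) * Real.exp (-tau * z) = 1 := by
      rw [← Real.exp_add]
      have : tau * z + -tau * z = 0 := by ring
      rw [this, Real.exp_zero]
    simp only [mul_zero, add_zero]
    calc Real.exp (tau * z) * (tau * u.2.2) * (Real.exp (-tau * z) * u.2.2)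
        = (Real.exp (tau * z) * Real.exp (-tau * z)) * (tau * u.2.2 ^ 2) := by ring
      _ = tau * u.2.2 ^ 2 := by rw [h6, one_mul]
  · rw [hW3.self_of_nhds, hW2.self_of_nhds]
    have h4 := ((hz.const_mul (-tau)).exp).mul h2
    have h5 : (fun s => solW2.form (γ s) (velocity (ℝ × ℝ × ℝ) γ s)) =ᶠ[𝓝 t]
        (fun s => Real.exp (-tau * (e (γ s)).2.2)) * (fun s => Real.exp (2 * tau * (e (γ s)).2.2) *
      (deriv (fun r => e (γ r)) s).2.1) := by
      filter_upwards [hW2] with r hr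
      rw [hr, Pi.mul_apply, ← mul_assoc, ← Real.exp_add]
      have : -tau * (e (γ r)).2.2 + 2 * tau * (e (γ r)).2.2 = tau * (e (γ r)).2.2 := by ring
      rw [this]
    refine (h4.congr_of_eventuallyEq h5).congr_deriv ?_
    have h6 : Real.exp (-tau * z) * Real.exp (2 * tau * z) = Real.exp (tau * z) := by
      rw [← Real.exp_add]
      congr 1
      ring
    simp only [mul_zero, add_zero]
    calc Real.exp (-tau * z) * (-tau * u.2.2) * (Real.exp (2 * tau * z) * u.2.1)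
        = (Real.exp (-tau * z) * Real.exp (2 * tau * z)) * (-tau * u.2.2 * u.2.1) := by ring
      _ = -tau * u.2.2 * (Real.exp (tau * z) * u.2.1) := by rw [h6]; ring
  · rw [hW3.self_of_nhds, hW2.self_of_nhds, hW1.self_of_nhds]
    refine (h3.congr_of_eventuallyEq hW1).congr_deriv ?_
    have h6 : Real.exp (2 * tau * z) = Real.exp (tau * z) * Real.exp (tau * z) := by
      rw [← Real.exp_add]
      congr 1
      ring
    show -tau * Real.exp (-tau * z) * (u.1 * u.2.2) + tau * Real.exp (2 * tau * z) *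
      (u.2.1 * u.2.1) = -tau * u.2.2 * (Real.exp (-tau * z) * u.1)
        + tau * (Real.exp (tau * z) * u.2.1) ^ 2
    rw [h6]
    ring

/-- velocities of a periodic curve are periodic -/
theorem velocity_periodic {γ : ℝ → SolMfd} (hγ : ContMDiff 𝓘(ℝ, ℝ) 𝓘(ℝ, ℝ × ℝ × ℝ) ∞ γ) {L : ℝ}
    (hper : ∀ t, γ (t + L) = γ t) (η : OneForm (ℝ × ℝ × ℝ) SolMfd) (t : ℝ) :
    η.form (γ (t + L)) (velocity (ℝ × ℝ × ℝ) γ (t + L))
      = η.form (γ t) (velocity (ℝ × ℝ × ℝ) γ t) := by
  have hfun : (γ ∘ fun s => s + L) = γ := by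
    ext1 s
    exact hper s
  have h1 : HasMFDerivAt 𝓘(ℝ, ℝ) 𝓘(ℝ, ℝ) (fun s : ℝ => s + L) t (ContinuousLinearMap.id ℝ ℝ) :=
    ((hasFDerivAt_id (𝕜 := ℝ) t).add_const L).hasMFDerivAt
  have h2 : HasMFDerivAt 𝓘(ℝ, ℝ) 𝓘(ℝ, ℝ × ℝ × ℝ) γ (t + L)
      (mfderiv 𝓘(ℝ, ℝ) 𝓘(ℝ, ℝ × ℝ × ℝ) γ (t + L)) :=
    ((hγ (t + L)).mdifferentiableAt (by simp)).hasMFDerivAt
  have h3 := HasMFDerivAt.comp (f := fun s : ℝ => s + L) (g := γ) t h2 h1
  have h4 : mfderiv 𝓘(ℝ, ℝ) 𝓘(ℝ, ℝ × ℝ × ℝ) (γ ∘ fun s => s + L) t (1 : ℝ)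
      = velocity (ℝ × ℝ × ℝ) γ (t + L) := by
    rw [h3.mfderiv]
    rfl
  have h5 : ∀ σ : ℝ → SolMfd, σ = γ →
      η.form (σ t) (mfderiv 𝓘(ℝ, ℝ) 𝓘(ℝ, ℝ × ℝ × ℝ) σ t (1 : ℝ))
        = η.form (γ t) (velocity (ℝ × ℝ × ℝ) γ t) := by
    rintro σ rfl
    rfl
  rw [← h5 _ hfun, h4]
  rfl

theorem isCovering : IsCoveringMap (proj SolZ : ℝ × ℝ × ℝ → SolMfd) :=
  isQuotientCoveringMap_quotientMk_of_properlyDiscontinuousSMul.isCoveringMap

theorem periodic_const {γ : ℝ → SolMfd} (hγ : solMetric.IsGeodesic γ) {L : ℝ} (hL : 0 < L)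
    (hper : ∀ t, γ (t + L) = γ t) (s t : ℝ) : γ s = γ t := by
  -- the invariant components
  have ha : ∀ t, solW3.form (γ t) (velocity (ℝ × ℝ × ℝ) γ t) = 0 := by
    intro t
    have h := deriv_zero_of_periodic hL (fun t => (frame_eqs hγ t).1)
      (fun t => mul_nonneg tau_pos.le (sq_nonneg _)) (velocity_periodic hγ.1 hper solW3) t
    rcases mul_eq_zero.1 h with h1 | h1
    · exact absurd h1 tau_pos.ne'
    · exact pow_eq_zero_iff (two_ne_zero) |>.1 h1
  have hb : ∀ t, HasDerivAt (fun s => solW1.form (γ s) (velocity (ℝ × ℝ × ℝ) γ s))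
      (tau * (solW2.form (γ t) (velocity (ℝ × ℝ × ℝ) γ t)) ^ 2) t := by
    intro t
    refine (frame_eqs hγ t).2.2.congr_deriv ?_
    rw [ha t]
    ring
  have hc : ∀ t, solW2.form (γ t) (velocity (ℝ × ℝ × ℝ) γ t) = 0 := by
    intro t
    have h := deriv_zero_of_periodic hL hb
      (fun t => mul_nonneg tau_pos.le (sq_nonneg _)) (velocity_periodic hγ.1 hper solW1) t
    rcases mul_eq_zero.1 h with h1 | h1
    · exact absurd h1 tau_pos.ne'
    · exact pow_eq_zero_iff (two_ne_zero) |>.1 h1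
  set b := solW1.form (γ 0) (velocity (ℝ × ℝ × ℝ) γ 0) with hbdef
  have hbc : ∀ t, solW1.form (γ t) (velocity (ℝ × ℝ × ℝ) γ t) = b := by
    intro t
    refine is_const_of_deriv_eq_zero (f := fun s => solW1.form (γ s) (velocity (ℝ × ℝ × ℝ) γ s))
      (fun t => (hb t).differentiableAt) (fun t => ?_) t 0
    rw [(hb t).deriv, hc t]
    ring
  -- lift to the universal covering
  obtain ⟨p0, hp0⟩ := proj_surjective (Γ := SolZ) (γ 0)
  obtain ⟨F, ⟨hF0, hF⟩, -⟩ := isCovering.existsUnique_continuousMap_lifts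
    (⟨γ, hγ.1.continuous⟩ : C(ℝ, SolMfd)) 0 p0 hp0
  have hFγ : ∀ r, proj SolZ (F r) = γ r := fun r => congrFun hF r
  have hFd : ∀ t, HasDerivAt F ((b * Real.exp (tau * (F t).2.2), 0, 0) : ℝ × ℝ × ℝ) t := by
    intro t
    set e := chartAt (ℝ × ℝ × ℝ) (γ t) with he'
    have he : e ∈ atlas (ℝ × ℝ × ℝ) SolMfd := chart_mem_atlas (ℝ × ℝ × ℝ) (γ t)
    have ht : γ t ∈ e.source := mem_chart_source (ℝ × ℝ × ℝ) (γ t)
    obtain ⟨δ, hδ⟩ := chart_proj he (y := F t) (by rw [hFγ]; exact ht)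
    have hev : ∀ᶠ r in 𝓝 t, e (γ r) = δ • F r := by
      have := (F.continuous.continuousAt (x := t)).eventually hδ
      filter_upwards [this] with r hr
      rw [← hFγ r]
      exact hr
    have hev2 : (fun r => F r) =ᶠ[𝓝 t] fun r => δ⁻¹ • e (γ r) := by
      filter_upwards [hev] with r hr
      rw [hr, inv_smul_smul]
    have hcd : HasDerivAt (fun r => e (γ r)) (deriv (fun r => e (γ r)) t) t :=
      ((contDiffAt_coord he hγ.1 ht).differentiableAt (by simp)).hasDerivAt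
    have h1 : HasFDerivAt (fun z : ℝ × ℝ × ℝ => δ⁻¹ • z)
        (fderiv ℝ (fun z : ℝ × ℝ × ℝ => δ⁻¹ • z) (e (γ t))) (e (γ t)) :=
      ((SmoothConst.smooth (E := ℝ × ℝ × ℝ) δ⁻¹).differentiable (by simp) _).hasFDerivAt
    have h2 := (h1.comp_hasDerivAt t hcd).congr_of_eventuallyEq hev2
    rw [SolZ.fderiv_smul] at h2
    refine h2.congr_deriv ?_
    have hmd : MDifferentiableAt 𝓘(ℝ, ℝ) 𝓘(ℝ, ℝ × ℝ × ℝ) γ t :=
      (hγ.1 t).mdifferentiableAt (by simp)
    have g1 := hbc t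
    have g2 := hc t
    have g3 := ha t
    rw [eval_velocity' solW1 he hmd ht, solW1_coeff he] at g1
    rw [eval_velocity' solW2 he hmd ht, solW2_coeff he] at g2
    rw [eval_velocity' solW3 he hmd ht, solW3_coeff he] at g3
    have g2' : (deriv (fun r => e (γ r)) t).2.1 = 0 := by
      rcases mul_eq_zero.1 g2 with h | h
      · exact absurd h (Real.exp_pos _).ne'
      · exact h
    rw [g2', g3, mul_zero]
    have hz : (e (γ t)).2.2 = (F t).2.2 + δ.k := by
      rw [hev.self_of_nhds, SolZ.smul_def]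
    rw [hz] at g1
    have h3 : lam ^ (δ⁻¹).k * (deriv (fun r => e (γ r)) t).1 = b * Real.exp (tau * (F t).2.2) := by
      rw [SolZ.inv_k, lam_zpow, ← g1]
      push_cast
      have h4 : Real.exp (tau * -δ.k) = Real.exp (-tau * ((F t).2.2 + δ.k)) *
          Real.exp (tau * (F t).2.2) := by
        rw [← Real.exp_add]
        congr 1
        ring
      rw [h4]
      ring
    rw [h3]
  have hz0 : ∀ t, (F t).2.2 = p0.2.2 := by
    intro t
    rw [← hF0]
    exact is_const_of_deriv_eq_zero (f := fun s => (F s).2.2)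
      (fun t => (hasDerivAt_snd' (hasDerivAt_snd' (hFd t))).differentiableAt)
      (fun t => (hasDerivAt_snd' (hasDerivAt_snd' (hFd t))).deriv) t 0
  have hy0 : ∀ t, (F t).2.1 = p0.2.1 := by
    intro t
    rw [← hF0]
    exact is_const_of_deriv_eq_zero (f := fun s => (F s).2.1)
      (fun t => (hasDerivAt_fst' (hasDerivAt_snd' (hFd t))).differentiableAt)
      (fun t => (hasDerivAt_fst' (hasDerivAt_snd' (hFd t))).deriv) t 0
  set v := b * Real.exp (tau * p0.2.2) with hv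
  have hx0 : ∀ t, (F t).1 = p0.1 + v * t := by
    intro t
    have h1 : ∀ t, HasDerivAt (fun s => (F s).1 - v * s) 0 t := by
      intro t
      have h2 := (hasDerivAt_fst' (hFd t)).sub ((hasDerivAt_id t).const_mul v)
      refine h2.congr_deriv ?_
      simp [hv, hz0 t]
    have h3 := is_const_of_deriv_eq_zero (fun t => (h1 t).differentiableAt)
      (fun t => (h1 t).deriv) t 0
    simp only [mul_zero, sub_zero, hF0] at h3
    linarith
  -- closing up
  have hclose : proj SolZ (F L) = proj SolZ (F 0) := by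
    rw [hFγ, hFγ, ← hper 0, zero_add]
  obtain ⟨δ, hδ⟩ := exists_of_proj_eq hclose
  rw [SolZ.smul_def] at hδ
  have e3 : (F L).2.2 = (F 0).2.2 + δ.k := congrArg (fun q : ℝ × ℝ × ℝ => q.2.2) hδ
  have e2 : (F L).2.1 = lam ^ (-δ.k) * (F 0).2.1 + emb2 δ.al :=
    congrArg (fun q : ℝ × ℝ × ℝ => q.2.1) hδ
  have e1 : (F L).1 = lam ^ δ.k * (F 0).1 + emb1 δ.al :=
    congrArg (fun q : ℝ × ℝ × ℝ => q.1) hδ
  rw [hz0, hz0] at e3
  have hk : δ.k = 0 := by
    have : (δ.k : ℝ) = 0 := by linarith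
    exact_mod_cast this
  rw [hy0, hy0, hk] at e2
  have hal : δ.al = 0 := SolZ.emb2_eq_zero (by
    simp only [neg_zero, zpow_zero, one_mul] at e2
    linarith)
  rw [hx0, hx0, hk, hal, map_zero] at e1
  have hv0 : v = 0 := by
    simp only [zpow_zero, one_mul, mul_zero, add_zero] at e1
    have h1 : v * L = 0 := by linarith
    rcases mul_eq_zero.1 h1 with h | h
    · exact h
    · exact absurd h hL.ne'
  have hconst : ∀ t, F t = p0 := by
    intro t
    refine Prod.ext ?_ (Prod.ext (hy0 t) (hz0 t))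
    rw [hx0, hv0]
    ring
  rw [← hFγ s, ← hFγ t, hconst s, hconst t]

/-- There is a closed connected Lorentzian 3-manifold on which every periodic geodesic is
constant. -/
theorem result : ∃ (M : Type) (_ : TopologicalSpace M) (_ : ChartedSpace (ℝ × ℝ × ℝ) M)
    (_ : IsManifold 𝓘(ℝ, ℝ × ℝ × ℝ) ∞ M) (_ : CompactSpace M) (_ : T2Space M)
    (_ : ConnectedSpace M) (g : SemiRiemannianMetric (ℝ × ℝ × ℝ) M),
    g.IsLorentzian ∧ ∀ (γ : ℝ → M) (L : ℝ), g.IsGeodesic γ → 0 < L →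
      (∀ t : ℝ, γ (t + L) = γ t) → ∀ s t : ℝ, γ s = γ t :=
  ⟨SolMfd, inferInstance, inferInstance, inferInstance, inferInstance, inferInstance,
    inferInstance, solMetric, solMetric_lorentzian,
    fun _ _ hγ hL hper s t => periodic_const hγ hL hper s t⟩

end Pool.Agent.Results.MP_aba202_gt.NoClosedGeodesic
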